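import Pool.Agent.Helper2.EG.All

/-!
# Growth of the solution counts of an Egyptian fraction equation, for almost all `n`

`Omega_n(s)` is the number of solutions of `1/x_1 + ... + 1/x_s + 1/(n x_1 ... x_s) = 1/n` in
integers `1 < x_1 < ... < x_s`.
-/

set_option autoImplicit false

namespace Pool.Agent.Results.MP_861132_nt.AlmostAll

open Pool.Agent.Helper2.EG

/-- Call `n` exceptional if `0 < Omega_n(s) < Omega_n(s + 1)` fails for some `s ≥ 4`. The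
exceptional numbers outside an explicit thin set of multiples of `5` have natural density zero,
and all exceptional numbers together have upper density at most `3 / 10 ^ 6`. -/
theorem result :
    (∀ ε : ℝ, 0 < ε → ∃ N₀ : ℕ, ∀ N : ℕ, N₀ ≤ N →
      ({n : ℕ | 0 < n ∧ n ≤ N ∧ ¬ Good n ∧
        ¬ (5 ∣ n ∧ (97 ∣ n ∨ 53 ∣ n) ∧ (41 ∣ n ∨ 409 ∣ n) ∧ (373 ∣ n ∨ 73 ∣ n))}.ncard : ℝ) ≤
        ε * N) ∧
    (∃ N₀ : ℕ, ∀ N : ℕ, N₀ ≤ N →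
      ({n : ℕ | 0 < n ∧ n ≤ N ∧ ¬ Good n}.ncard : ℝ) ≤ 3 / 10 ^ 6 * N) := by
  constructor
  · intro ε hε
    obtain ⟨N0, h⟩ := all_out ε hε
    refine ⟨N0, fun N hN => ?_⟩
    have e : {n : ℕ | 0 < n ∧ n ≤ N ∧ ¬ Good n ∧
        ¬ (5 ∣ n ∧ (97 ∣ n ∨ 53 ∣ n) ∧ (41 ∣ n ∨ 409 ∣ n) ∧ (373 ∣ n ∨ 73 ∣ n))} =
        (Exc ∩ {n | ¬ (5 ∣ n ∧ (97 ∣ n ∨ 53 ∣ n) ∧ (41 ∣ n ∨ 409 ∣ n) ∧
          (373 ∣ n ∨ 73 ∣ n))}) ∩ Set.Iic N := by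
      ext n
      constructor
      · rintro ⟨h1, h2, h3, h4⟩
        exact ⟨⟨⟨h1, h3⟩, h4⟩, h2⟩
      · rintro ⟨⟨⟨h1, h3⟩, h4⟩, h2⟩
        exact ⟨h1, h2, h3, h4⟩
    rw [e]
    exact h N hN
  · obtain ⟨N0, h⟩ := all_upper
    refine ⟨N0, fun N hN => ?_⟩
    have e : {n : ℕ | 0 < n ∧ n ≤ N ∧ ¬ Good n} = Exc ∩ Set.Iic N := by
      ext n
      constructor
      · rintro ⟨h1, h2, h3⟩
        exact ⟨⟨h1, h3⟩, h2⟩
      · rintro ⟨⟨h1, h3⟩, h2⟩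
        exact ⟨h1, h2, h3⟩
    rw [e]
    exact h N hN

end Pool.Agent.Results.MP_861132_nt.AlmostAll
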